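import Mathlib
import Pool.Agent.H421Sph.Defs
import Pool.Agent.H421Sph.Global
import Pool.Agent.H421Sph.Hensel
import Pool.Agent.H421Sph.Aniso
import Pool.Agent.H421Sph.LocalSize

/-!
Lower bound for the minimal dimension in the lattice point count on arithmetic k-spheres.
-/

namespace Pool.Agent.Results.MP_927be3_nt.LowerBound

open Pool.Agent.H421Sph

/-- For every `k ≥ 3`, each dimension `d ≥ 1` in which `N(r) ≍ r ^ (d - k)` holds satisfies
`d ≥ k + 2`, and in `d` variables the form `x_1 ^ k + ... + x_d ^ k` represents zero modulo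
`p ^ k` with not all variables divisible by `p`, for every prime `p`; in particular
`d ≥ p ^ (s + 1)` if `p ^ s` and `p - 1` divide `k`, and `d ≥ 2 ^ (s + 2)` if `2 ^ s` divides `k`
and `s ≥ 1`. -/
theorem result (k d : ℕ) (hk : 3 ≤ k) (hd : 1 ≤ d) (h : AsympHolds k d) :
    k + 2 ≤ d ∧
      (∀ p : ℕ, p.Prime → ∃ x : Fin d → ℕ, (∃ i, ¬ p ∣ x i) ∧ p ^ k ∣ ∑ i, x i ^ k) ∧
      (∀ p s : ℕ, p.Prime → p - 1 ∣ k → p ^ s ∣ k → p ^ (s + 1) ≤ d) ∧
      ∀ s : ℕ, 1 ≤ s → 2 ^ s ∣ k → 2 ^ (s + 2) ≤ d := by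
  have h1 : k + 2 ≤ d := by
    rcases Nat.lt_or_ge k 4 with h3 | h4
    · have : k = 3 := by omega
      subst this
      exact lower_of_local 3 (by norm_num) (1 / 4) (by norm_num) 0
        (fun p hp _ => local3 p hp) d hd h
    · exact lower_of_local k (by omega) (1 / 2) (by norm_num) (16 * (2 * k ^ 2) ^ (k + 1))
        (fun p hp hb => local4 k h4 p hp hb) d hd h
  have h2 : ∀ p : ℕ, p.Prime → ∃ x : Fin d → ℕ, (∃ i, ¬ p ∣ x i) ∧ p ^ k ∣ ∑ i, x i ^ k :=
    fun p hp => isotropic_of_asymp k d (by omega) (by omega) h p hp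
  refine ⟨h1, h2, ?_, ?_⟩
  · intro p s hp hpk hs
    obtain ⟨x, hx, hsum⟩ := h2 p hp
    exact size_prime p k d s hp (by omega) hs hpk x hx hsum
  · intro s hs0 hs
    obtain ⟨x, hx, hsum⟩ := h2 2 Nat.prime_two
    exact size_two k d s hk hs0 hs x hx hsum

end Pool.Agent.Results.MP_927be3_nt.LowerBound
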